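import Mathlib
import Pool.Agent.Helper6.SW.Defs
import Pool.Agent.Helper34.ER.LS

/-! BV-1: bilinear forms with the tent weight (multiplicative large sieve on both factors). -/

namespace Pool.Agent.Helper10.SW

open Finset MeasureTheory Pool.Agent.Helper6.ER Pool.Agent.Helper6.SW

/-- the twisted linear form -/
noncomputable def lf {f : ℕ} (ψ : DirichletCharacter ℂ f) (I : Finset ℕ) (α : ℕ → ℂ) (t : ℝ) : ℂ :=
  ∑ a ∈ I, (α a * Complex.exp (Complex.I * ((t * Real.log a : ℝ) : ℂ))) * ψ (a : ZMod f)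

theorem norm_cexp_I (t x : ℝ) : ‖Complex.exp (Complex.I * ((t * x : ℝ) : ℂ))‖ = 1 := by
  rw [mul_comm]
  exact Complex.norm_exp_ofReal_mul_I _

theorem lf_cont {f : ℕ} (ψ : DirichletCharacter ℂ f) (I : Finset ℕ) (α : ℕ → ℂ) :
    Continuous (fun t => lf ψ I α t) := by
  unfold lf
  fun_prop

theorem lf_bound {f : ℕ} (ψ : DirichletCharacter ℂ f) (I : Finset ℕ) (α : ℕ → ℂ) (t : ℝ) :
    ‖lf ψ I α t‖ ≤ ∑ a ∈ I, ‖α a‖ := by
  unfold lf
  refine norm_sum_le_of_le _ fun a _ => ?_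
  rw [norm_mul, norm_mul, norm_cexp_I, mul_one]
  exact mul_le_of_le_one_right (norm_nonneg _) (ψ.norm_le_one _)

/-- Cauchy and Schwarz with the large sieve, for each `t` -/
theorem pointwise (F A L : ℕ) (I J : Finset ℕ) (α β : ℕ → ℂ)
    (hF : 1 ≤ F) (hA : F ^ 2 ≤ A) (hL : F ^ 2 ≤ L) (hI : ∀ a ∈ I, 1 ≤ a ∧ a < A)
    (hJ : ∀ l ∈ J, 1 ≤ l ∧ l < L) (t : ℝ) :
    ∑ f ∈ Icc 1 F, ((f : ℝ) / f.totient) * ∑ ψ ∈ prim f, ‖lf ψ I α t‖ * ‖lf ψ J β t‖ ≤
    5 * Real.sqrt (A * ∑ a ∈ I, ‖α a‖ ^ 2) * Real.sqrt (L * ∑ l ∈ J, ‖β l‖ ^ 2) := by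
  have key : ∀ (U : ℕ) (K : Finset ℕ) (γ : ℕ → ℂ), F ^ 2 ≤ U → (∀ a ∈ K, 1 ≤ a ∧ a < U) →
      ∑ f ∈ Icc 1 F, ((f : ℝ) / f.totient) * ∑ ψ ∈ prim f, ‖lf ψ K γ t‖ ^ 2 ≤
        5 * (U * ∑ a ∈ K, ‖γ a‖ ^ 2) := by
    intro U K γ hU hK
    have h := mult_large_sieve F U hF hU K (fun a ha => (hK a ha).2)
      (fun a => γ a * Complex.exp (Complex.I * ((t * Real.log a : ℝ) : ℂ)))
    refine h.trans (le_of_eq ?_)
    rw [mul_assoc]
    congr 2
    refine Finset.sum_congr rfl fun a _ => ?_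
    rw [norm_mul, norm_cexp_I, mul_one]
  have hP := key A I α hA hI
  have hQ := key L J β hL hJ
  set S := (Icc 1 F).sigma (fun f => prim f) with hS
  have hc : ∀ x : (Σ f : ℕ, DirichletCharacter ℂ f), 0 ≤ ((x.1 : ℝ) / x.1.totient) :=
    fun x => by positivity
  have e1 : ∀ g : (f : ℕ) → DirichletCharacter ℂ f → ℝ,
      ∑ f ∈ Icc 1 F, ((f : ℝ) / f.totient) * ∑ ψ ∈ prim f, g f ψ =
        ∑ x ∈ S, ((x.1 : ℝ) / x.1.totient) * g x.1 x.2 := by
    intro g
    rw [hS, Finset.sum_sigma]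
    refine Finset.sum_congr rfl fun f _ => ?_
    rw [Finset.mul_sum]
  rw [e1 (fun f ψ => ‖lf ψ I α t‖ * ‖lf ψ J β t‖)]
  rw [e1 (fun f ψ => ‖lf ψ I α t‖ ^ 2)] at hP
  rw [e1 (fun f ψ => ‖lf ψ J β t‖ ^ 2)] at hQ
  have hcs := Real.sum_mul_le_sqrt_mul_sqrt S
    (fun x => Real.sqrt ((x.1 : ℝ) / x.1.totient) * ‖lf x.2 I α t‖)
    (fun x => Real.sqrt ((x.1 : ℝ) / x.1.totient) * ‖lf x.2 J β t‖)
  have e2 : ∀ x : (Σ f : ℕ, DirichletCharacter ℂ f), ∀ u v : ℝ,
      (Real.sqrt ((x.1 : ℝ) / x.1.totient) * u) * (Real.sqrt ((x.1 : ℝ) / x.1.totient) * v) =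
        ((x.1 : ℝ) / x.1.totient) * (u * v) := by
    intro x u v
    calc (Real.sqrt ((x.1 : ℝ) / x.1.totient) * u) * (Real.sqrt ((x.1 : ℝ) / x.1.totient) * v)
        = (Real.sqrt ((x.1 : ℝ) / x.1.totient) * Real.sqrt ((x.1 : ℝ) / x.1.totient)) *
          (u * v) := by ring
      _ = ((x.1 : ℝ) / x.1.totient) * (u * v) := by rw [Real.mul_self_sqrt (hc x)]
  simp only [e2, sq] at hcs
  simp only [sq] at hP hQ
  refine hcs.trans ?_
  have h5 : Real.sqrt (5 * (A * ∑ a ∈ I, ‖α a‖ * ‖α a‖)) *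
      Real.sqrt (5 * (L * ∑ l ∈ J, ‖β l‖ * ‖β l‖)) =
      5 * Real.sqrt (A * ∑ a ∈ I, ‖α a‖ ^ 2) * Real.sqrt (L * ∑ l ∈ J, ‖β l‖ ^ 2) := by
    simp only [← sq]
    rw [Real.sqrt_mul (by norm_num), Real.sqrt_mul (by norm_num : (0 : ℝ) ≤ 5)]
    have : Real.sqrt 5 * Real.sqrt 5 = 5 := Real.mul_self_sqrt (by norm_num)
    linear_combination (Real.sqrt (A * ∑ a ∈ I, ‖α a‖ ^ 2) *
      Real.sqrt (L * ∑ l ∈ J, ‖β l‖ ^ 2)) * this
  rw [← h5]
  exact mul_le_mul (Real.sqrt_le_sqrt hP) (Real.sqrt_le_sqrt hQ) (Real.sqrt_nonneg _)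
    (Real.sqrt_nonneg _)

theorem stBilin_of (h : StTent) : StBilin := by
  intro V X F A L I J α β hV hX hF hA hL hI hJ
  obtain ⟨w, C, ⟨hwi, hw0, hwF⟩, -⟩ := h V hV
  have hw1 : ∫ t, w t = 1 := by
    have h0 := hwF 0
    simp only [mul_zero, Complex.ofReal_zero, Complex.exp_zero, mul_one] at h0
    have h1 : ((∫ t, w t : ℝ) : ℂ) = ((1 : ℝ) : ℂ) := by
      rw [← integral_complex_ofReal, h0]
      unfold tent
      simp
    exact_mod_cast h1
  -- the pointwise identity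
  have hrep : ∀ (f : ℕ) (ψ : DirichletCharacter ℂ f),
      ∑ a ∈ I, ∑ l ∈ J, α a * β l * ψ (a : ZMod f) * ψ (l : ZMod f) *
        ((tent V (Real.log a + Real.log l - Real.log X) : ℝ) : ℂ) =
      ∫ t, ((w t : ℝ) : ℂ) * (Complex.exp (Complex.I * ((t * (-Real.log X) : ℝ) : ℂ)) *
        (lf ψ I α t * lf ψ J β t)) := by
    intro f ψ
    have hint : ∀ v : ℝ, Integrable
        (fun t : ℝ => ((w t : ℝ) : ℂ) * Complex.exp (Complex.I * ((t * v : ℝ) : ℂ))) := by
      intro v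
      refine (hwi.ofReal (𝕜 := ℂ)).mul_bdd (c := 1) ?_ ?_
      · exact Continuous.aestronglyMeasurable (by fun_prop)
      · exact Filter.Eventually.of_forall fun t => (norm_cexp_I t v).le
    have h1 : ∀ a l : ℕ, α a * β l * ψ (a : ZMod f) * ψ (l : ZMod f) *
        ((tent V (Real.log a + Real.log l - Real.log X) : ℝ) : ℂ) =
        ∫ t, (α a * β l * ψ (a : ZMod f) * ψ (l : ZMod f)) * (((w t : ℝ) : ℂ) *
          Complex.exp (Complex.I * ((t * (Real.log a + Real.log l - Real.log X) : ℝ) : ℂ))) := by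
      intro a l
      rw [integral_const_mul, hwF]
    simp_rw [h1]
    have h2 : ∀ a ∈ I, ∑ l ∈ J, ∫ t, (α a * β l * ψ (a : ZMod f) * ψ (l : ZMod f)) *
        (((w t : ℝ) : ℂ) *
          Complex.exp (Complex.I * ((t * (Real.log a + Real.log l - Real.log X) : ℝ) : ℂ))) =
        ∫ t, ∑ l ∈ J, (α a * β l * ψ (a : ZMod f) * ψ (l : ZMod f)) * (((w t : ℝ) : ℂ) *
          Complex.exp (Complex.I * ((t * (Real.log a + Real.log l - Real.log X) : ℝ) : ℂ))) := by
      intro a _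
      rw [integral_finsetSum]
      intro l _
      exact (hint _).const_mul _
    rw [Finset.sum_congr rfl h2, ← integral_finsetSum]
    · congr 1
      ext t
      unfold lf
      rw [Finset.sum_mul_sum, Finset.mul_sum, Finset.mul_sum]
      refine Finset.sum_congr rfl fun a _ => ?_
      rw [Finset.mul_sum, Finset.mul_sum]
      refine Finset.sum_congr rfl fun l _ => ?_
      have he : Complex.exp (Complex.I *
          ((t * (Real.log a + Real.log l - Real.log X) : ℝ) : ℂ)) =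
          Complex.exp (Complex.I * ((t * (-Real.log X) : ℝ) : ℂ)) *
          (Complex.exp (Complex.I * ((t * Real.log a : ℝ) : ℂ)) *
          Complex.exp (Complex.I * ((t * Real.log l : ℝ) : ℂ))) := by
        rw [← Complex.exp_add, ← Complex.exp_add]
        congr 1
        push_cast
        ring
      rw [he]
      ring
    · intro a _
      refine integrable_finsetSum _ fun l _ => ?_
      exact (hint _).const_mul _
  have hint2 : ∀ (f : ℕ) (ψ : DirichletCharacter ℂ f),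
      Integrable (fun t => w t * (‖lf ψ I α t‖ * ‖lf ψ J β t‖)) := by
    intro f ψ
    refine hwi.mul_bdd (c := (∑ a ∈ I, ‖α a‖) * ∑ l ∈ J, ‖β l‖) ?_ ?_
    · exact Continuous.aestronglyMeasurable ((lf_cont ψ I α).norm.mul (lf_cont ψ J β).norm)
    · refine Filter.Eventually.of_forall fun t => ?_
      rw [Real.norm_eq_abs, abs_of_nonneg (by positivity)]
      exact mul_le_mul (lf_bound ψ I α t) (lf_bound ψ J β t) (norm_nonneg _)
        (Finset.sum_nonneg fun _ _ => norm_nonneg _)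
  have hnorm : ∀ (f : ℕ) (ψ : DirichletCharacter ℂ f),
      ‖∑ a ∈ I, ∑ l ∈ J, α a * β l * ψ (a : ZMod f) * ψ (l : ZMod f) *
        ((tent V (Real.log a + Real.log l - Real.log X) : ℝ) : ℂ)‖ ≤
      ∫ t, w t * (‖lf ψ I α t‖ * ‖lf ψ J β t‖) := by
    intro f ψ
    rw [hrep]
    refine (norm_integral_le_integral_norm _).trans (le_of_eq ?_)
    congr 1
    ext t
    rw [norm_mul, norm_mul, norm_mul, norm_cexp_I, one_mul, Complex.norm_real, Real.norm_eq_abs,
      abs_of_nonneg (hw0 t)]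
  set K : ℝ := 5 * Real.sqrt (A * ∑ a ∈ I, ‖α a‖ ^ 2) * Real.sqrt (L * ∑ l ∈ J, ‖β l‖ ^ 2)
    with hK
  calc ∑ f ∈ Icc 1 F, ((f : ℝ) / f.totient) * ∑ ψ ∈ prim f,
      ‖∑ a ∈ I, ∑ l ∈ J, α a * β l * ψ (a : ZMod f) * ψ (l : ZMod f) *
        ((tent V (Real.log a + Real.log l - Real.log X) : ℝ) : ℂ)‖
      ≤ ∑ f ∈ Icc 1 F, ((f : ℝ) / f.totient) * ∑ ψ ∈ prim f,
          ∫ t, w t * (‖lf ψ I α t‖ * ‖lf ψ J β t‖) := by
        refine Finset.sum_le_sum fun f _ => ?_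
        refine mul_le_mul_of_nonneg_left ?_ (by positivity)
        exact Finset.sum_le_sum fun ψ _ => hnorm f ψ
    _ = ∫ t, w t * ∑ f ∈ Icc 1 F, ((f : ℝ) / f.totient) * ∑ ψ ∈ prim f,
          ‖lf ψ I α t‖ * ‖lf ψ J β t‖ := by
        have e1 : ∀ f ∈ Icc 1 F, ((f : ℝ) / f.totient) * ∑ ψ ∈ prim f,
            ∫ t, w t * (‖lf ψ I α t‖ * ‖lf ψ J β t‖) =
            ∫ t, ((f : ℝ) / f.totient) * ∑ ψ ∈ prim f, w t * (‖lf ψ I α t‖ * ‖lf ψ J β t‖) := by
          intro f _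
          rw [integral_const_mul, integral_finsetSum]
          intro ψ _
          exact hint2 f ψ
        rw [Finset.sum_congr rfl e1, ← integral_finsetSum]
        · congr 1
          ext t
          rw [Finset.mul_sum]
          refine Finset.sum_congr rfl fun f _ => ?_
          rw [← Finset.mul_sum]
          ring
        · intro f _
          refine Integrable.const_mul ?_ _
          exact integrable_finsetSum _ fun ψ _ => hint2 f ψ
    _ ≤ ∫ t, w t * K := by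
        refine integral_mono_of_nonneg ?_ (hwi.mul_const K) ?_
        · refine Filter.Eventually.of_forall fun t => ?_
          refine mul_nonneg (hw0 t) (Finset.sum_nonneg fun f _ => ?_)
          exact mul_nonneg (by positivity) (Finset.sum_nonneg fun ψ _ => by positivity)
        · refine Filter.Eventually.of_forall fun t => ?_
          exact mul_le_mul_of_nonneg_left
            (pointwise F A L I J α β hF hA hL hI hJ t) (hw0 t)
    _ = K := by rw [integral_mul_const, hw1, one_mul]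

end Pool.Agent.Helper10.SW
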